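import Pool.Agent.H70.LES_Decomp
import Mathlib.Analysis.Normed.Lp.SmoothApprox

/-! Module L7: approximation by smooth compactly supported matrix fields. -/

open MeasureTheory Set Filter Topology
open scoped ContDiff ENNReal
open H36.MHD

noncomputable section

namespace H37.LES

theorem approx_one (P : Prob) (f : X → ℝ) (hf : Integrable f P.μ) (η : ℝ) (hη : 0 < η) :
    ∃ S : X → ℝ, ContDiff ℝ ∞ S ∧ HasCompactSupport S ∧ tsupport S ⊆ cyl P.Ω P.T ∧
      Integrable S P.μ ∧ ∫ z, |f z - S z| ∂P.μ ≤ η := by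
  have hfin := mu_finite70 P
  obtain ⟨g, hg1, hg2, hg3⟩ := (memLp_one_iff_integrable.2 hf).exist_eLpNorm_sub_le
    (by simp) le_rfl (half_pos hη)
  have hgi : Integrable g P.μ := hg2.continuous.integrable_of_hasCompactSupport hg1
  have hfg : ∫ z, |f z - g z| ∂P.μ ≤ η / 2 := by
    have h1 : ∫ z, ‖(f - g) z‖ ∂P.μ = (eLpNorm (f - g) 1 P.μ).toReal := by
      rw [eLpNorm_one_eq_lintegral_enorm]
      exact integral_norm_eq_lintegral_enorm (hf.sub hgi).aestronglyMeasurable
    have h2 : (eLpNorm (f - g) 1 P.μ).toReal ≤ η / 2 :=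
      ENNReal.toReal_le_of_le_ofReal (half_pos hη).le hg3
    have h3 : ∫ z, |f z - g z| ∂P.μ = ∫ z, ‖(f - g) z‖ ∂P.μ := rfl
    rw [h3, h1]; exact h2
  obtain ⟨C, hC⟩ := hg1.exists_bound_of_continuous hg2.continuous
  have hC0 : 0 ≤ C := (norm_nonneg _).trans (hC 0)
  have hopen : IsOpen (cyl P.Ω P.T) := isOpen_Ioo.prod P.hΩ
  have hvol : (volume : Measure X) (cyl P.Ω P.T) ≠ ⊤ := by
    have := hfin.measure_univ_lt_top
    rw [Measure.restrict_apply_univ] at this
    exact this.ne
  obtain ⟨K, hK1, hK2, hK3⟩ := hopen.measurableSet.exists_isCompact_sdiff_lt hvol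
    (ε := ENNReal.ofReal (η / (2 * (C + 1)))) (by
      have : 0 < η / (2 * (C + 1)) := by positivity
      simpa using this)
  obtain ⟨ζ, hz1, hz2, hz3, hz4, hz5⟩ := exists_cut70 K _ hK2 hopen hK1
  have hS1 : ContDiff ℝ ∞ (fun z => ζ z * g z) := hz1.mul hg2
  have hS2 : HasCompactSupport (fun z => ζ z * g z) := hz2.mul_right
  have hSi : Integrable (fun z => ζ z * g z) P.μ := hS1.continuous.integrable_of_hasCompactSupport hS2
  refine ⟨fun z => ζ z * g z, hS1, hS2,
    (closure_mono (Function.support_mul_subset_left ζ g)).trans hz3, hSi, ?_⟩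
  have h4 : ∫ z, |g z - ζ z * g z| ∂P.μ ≤ η / 2 := by
    have hle : ∀ z ∈ cyl P.Ω P.T, |g z - ζ z * g z| ≤ indicator (cyl P.Ω P.T \ K) (fun _ => C) z := by
      intro z hz
      by_cases hzK : z ∈ K
      · rw [hz4 z hzK]; simp [hzK]
      · rw [indicator_of_mem (show z ∈ cyl P.Ω P.T \ K from ⟨hz, hzK⟩)]
        have : g z - ζ z * g z = (1 - ζ z) * g z := by ring
        rw [this, abs_mul]
        have h6 : |1 - ζ z| ≤ 1 := by rw [abs_le]; constructor <;> linarith [(hz5 z).1, (hz5 z).2]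
        have h7 : |g z| ≤ C := hC z
        calc |1 - ζ z| * |g z| ≤ 1 * C := mul_le_mul h6 h7 (abs_nonneg _) one_pos.le
          _ = C := one_mul C
    have hmeas : MeasurableSet (cyl P.Ω P.T \ K) := hopen.measurableSet.diff hK2.measurableSet
    have h5 : ∫ z, |g z - ζ z * g z| ∂P.μ ≤ ∫ z, indicator (cyl P.Ω P.T \ K) (fun _ => C) z ∂P.μ := by
      refine setIntegral_mono_on (hgi.sub hSi).abs
        ((integrable_const C).indicator hmeas) hopen.measurableSet hle
    refine h5.trans ?_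
    rw [integral_indicator hmeas, integral_const, smul_eq_mul]
    have h8 : (P.μ.restrict (cyl P.Ω P.T \ K)).real univ ≤ η / (2 * (C + 1)) := by
      rw [measureReal_def, Measure.restrict_apply_univ]
      refine ENNReal.toReal_le_of_le_ofReal (by positivity) ?_
      exact (Measure.restrict_apply_le _ _).trans hK3.le
    calc (P.μ.restrict (cyl P.Ω P.T \ K)).real univ * C ≤ η / (2 * (C + 1)) * C :=
          mul_le_mul_of_nonneg_right h8 hC0
      _ ≤ η / 2 := by
        rw [div_mul_eq_mul_div, div_le_div_iff₀ (by positivity) (by positivity)]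
        nlinarith
  calc ∫ z, |f z - ζ z * g z| ∂P.μ ≤ ∫ z, (|f z - g z| + |g z - ζ z * g z|) ∂P.μ := by
        refine integral_mono (hf.sub hSi).abs ((hf.sub hgi).abs.add (hgi.sub hSi).abs) fun z => ?_
        exact abs_sub_le _ _ _
    _ = ∫ z, |f z - g z| ∂P.μ + ∫ z, |g z - ζ z * g z| ∂P.μ :=
        integral_add (hf.sub hgi).abs (hgi.sub hSi).abs
    _ ≤ η := by linarith

theorem approx (P : Prob) (R : Fin 3 → Fin 3 → X → ℝ) (hR : P.IsErr R) (η : ℝ) (hη : 0 < η) :
    ∃ S : Fin 3 → Fin 3 → X → ℝ, (∀ i j, ContDiff ℝ ∞ (S i j)) ∧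
      (∀ i j, HasCompactSupport (S i j)) ∧ (∀ i j, tsupport (S i j) ⊆ cyl P.Ω P.T) ∧
      (∀ i j z, S i j z = S j i z) ∧ P.L1 (fun i j z => R i j z - S i j z) ≤ η := by
  choose s h1 h2 h3 h4 h5 using fun i j => approx_one P (R i j) (hR.int i j) (η / 9) (by positivity)
  have hsm : ∀ i j, ContDiff ℝ ∞ (fun z => 2⁻¹ * (s i j z + s j i z)) := fun i j =>
    contDiff_const.mul ((h1 i j).add (h1 j i))
  have hsup : ∀ i j, tsupport (fun z => 2⁻¹ * (s i j z + s j i z)) ⊆
      tsupport (s i j) ∪ tsupport (s j i) := by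
    intro i j
    refine (closure_mono (Function.support_mul_subset_right _ _)).trans ?_
    refine (closure_mono (Function.support_add _ _)).trans ?_
    rw [closure_union]; rfl
  refine ⟨fun i j z => 2⁻¹ * (s i j z + s j i z), hsm, fun i j => ?_, fun i j => ?_,
    fun i j z => by simp only [add_comm], ?_⟩
  · exact HasCompactSupport.of_support_subset_isCompact ((h2 i j).isCompact.union (h2 j i).isCompact)
      ((subset_tsupport _).trans (hsup i j))
  · exact (hsup i j).trans (union_subset (h3 i j) (h3 j i))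
  · unfold Prob.L1
    have key : ∀ i j, ∫ z, |R i j z - 2⁻¹ * (s i j z + s j i z)| ∂P.μ ≤ η / 9 := by
      intro i j
      have i1 : Integrable (fun z => |R i j z - s i j z|) P.μ := ((hR.int i j).sub (h4 i j)).abs
      have i2 : Integrable (fun z => |R j i z - s j i z|) P.μ := ((hR.int j i).sub (h4 j i)).abs
      calc ∫ z, |R i j z - 2⁻¹ * (s i j z + s j i z)| ∂P.μ
          ≤ ∫ z, (2⁻¹ * |R i j z - s i j z| + 2⁻¹ * |R j i z - s j i z|) ∂P.μ := by
            refine integral_mono ((hR.int i j).sub (((h4 i j).add (h4 j i)).const_mul _)).abs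
              ((i1.const_mul _).add (i2.const_mul _)) fun z => ?_
            show |R i j z - 2⁻¹ * (s i j z + s j i z)| ≤
              2⁻¹ * |R i j z - s i j z| + 2⁻¹ * |R j i z - s j i z|
            have e1 : R i j z - 2⁻¹ * (s i j z + s j i z)
                = 2⁻¹ * (R i j z - s i j z) + 2⁻¹ * (R j i z - s j i z) := by
              rw [hR.symm j i z]; ring
            rw [e1]
            refine (abs_add_le _ _).trans ?_
            rw [abs_mul, abs_mul, abs_of_pos (by norm_num : (0:ℝ) < 2⁻¹)]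
        _ = 2⁻¹ * ∫ z, |R i j z - s i j z| ∂P.μ + 2⁻¹ * ∫ z, |R j i z - s j i z| ∂P.μ := by
            rw [integral_add (i1.const_mul _) (i2.const_mul _), integral_const_mul,
              integral_const_mul]
        _ ≤ η / 9 := by linarith [h5 i j, h5 j i]
    calc ∑ i, ∑ j, ∫ z, |R i j z - 2⁻¹ * (s i j z + s j i z)| ∂P.μ
        ≤ ∑ i : Fin 3, ∑ j : Fin 3, η / 9 :=
          Finset.sum_le_sum fun i _ => Finset.sum_le_sum fun j _ => key i j
      _ = η := by simp; ring
      _ ≤ η := le_rfl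

end H37.LES
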