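import Pool.Agent.H37.LES.Defs

/-! Module L4: self-interaction of the building block. -/

open MeasureTheory Set Filter Topology
open scoped ContDiff ENNReal
open H36.MHD

noncomputable section

namespace H37.LES

namespace SelfInt

/-- one-variable primitive of a mean-zero smooth periodic function -/
lemma exists_primitive (θ : ℝ → ℝ) (hθ : ContDiff ℝ ∞ θ) (hper : ∀ s, θ (s + 1) = θ s)
    (h0 : ∫ s in (0:ℝ)..1, θ s = 0) :
    ∃ Θ : ℝ → ℝ, ContDiff ℝ ∞ Θ ∧ (∀ s, HasDerivAt Θ (θ s) s) ∧
      ∃ M, 0 ≤ M ∧ ∀ s, |Θ s| ≤ M := by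
  have hc : Continuous θ := hθ.continuous
  set Θ : ℝ → ℝ := fun s => ∫ x in (0:ℝ)..s, θ x with hΘ
  have hd : ∀ s, HasDerivAt Θ (θ s) s := fun s =>
    intervalIntegral.integral_hasDerivAt_right (hc.intervalIntegrable _ _)
      (hc.stronglyMeasurableAtFilter _ _) hc.continuousAt
  have hsm : ContDiff ℝ ∞ Θ := by
    rw [contDiff_infty_iff_deriv]
    refine ⟨fun s => (hd s).differentiableAt, ?_⟩
    have : deriv Θ = θ := funext fun s => (hd s).deriv
    rw [this]; exact hθ
  have hp : Function.Periodic Θ 1 := by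
    intro s
    have hpθ : Function.Periodic θ 1 := hper
    have h1 : ∫ x in (0:ℝ)..(s + 1), θ x = (∫ x in (0:ℝ)..s, θ x) + ∫ x in s..(s + 1), θ x :=
      (intervalIntegral.integral_add_adjacent_intervals (hc.intervalIntegrable _ _)
        (hc.intervalIntegrable _ _)).symm
    have h2 : ∫ x in s..(s + 1), θ x = ∫ x in (0:ℝ)..(0 + 1), θ x :=
      hpθ.intervalIntegral_add_eq s 0
    rw [zero_add, h0] at h2
    show (∫ x in (0:ℝ)..(s + 1), θ x) = ∫ x in (0:ℝ)..s, θ x
    rw [h1, h2, add_zero]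
  obtain ⟨M, hM⟩ := (isCompact_Icc (a := (0:ℝ)) (b := 1)).exists_bound_of_continuousOn
    hsm.continuous.continuousOn
  refine ⟨Θ, hsm, hd, max M 0, le_max_right _ _, fun s => ?_⟩
  obtain ⟨y, hy, hy2⟩ := hp.exists_mem_Ico₀ (by norm_num) s
  rw [hy2]
  exact (hM y ⟨hy.1, hy.2.le⟩).trans (le_max_left _ _)

/-- plane wave `Θ (lam x_l)` -/
def wv (Θ : ℝ → ℝ) (lam : ℝ) (l : Fin 3) (z : X) : ℝ := Θ (lam * z.2 l)

lemma smooth_wv {Θ : ℝ → ℝ} (hΘ : ContDiff ℝ ∞ Θ) (lam : ℝ) (l : Fin 3) :
    ContDiff ℝ ∞ (wv Θ lam l) := by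
  unfold wv
  exact hΘ.comp (contDiff_const.mul (((ContinuousLinearMap.proj (R := ℝ) (φ := fun _ : Fin 3 => ℝ) l).contDiff).comp contDiff_snd))

lemma dx_wv {Θ θ : ℝ → ℝ} (hΘ : ∀ s, HasDerivAt Θ (θ s) s) (lam : ℝ) (l j : Fin 3) (z : X) :
    dx j (wv Θ lam l) z = if j = l then lam * θ (lam * z.2 l) else 0 := by
  have h1 : HasFDerivAt (fun y : X => lam * y.2 l)
      (lam • ((ContinuousLinearMap.proj (R := ℝ) (φ := fun _ : Fin 3 => ℝ) l).comp
        (ContinuousLinearMap.snd ℝ ℝ V3))) z :=
    (((ContinuousLinearMap.proj (R := ℝ) (φ := fun _ : Fin 3 => ℝ) l).comp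
        (ContinuousLinearMap.snd ℝ ℝ V3)).hasFDerivAt).const_mul lam
  have h2 := (hΘ (lam * z.2 l)).comp_hasFDerivAt z h1
  unfold dx wv
  rw [show (fun z : X => Θ (lam * z.2 l)) = Θ ∘ (fun y : X => lam * y.2 l) from rfl, h2.fderiv]
  by_cases hj : j = l
  · subst hj; simp [mul_comm]
  · simp [hj, Ne.symm hj]

/-- smooth, compactly supported, supported over `Ω` -/
structure Good (Ω : Set V3) (F : X → ℝ) : Prop where
  sm : ContDiff ℝ ∞ F
  cp : HasCompactSupport F
  sp : tsupport F ⊆ univ ×ˢ Ω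

lemma Good.mul {Ω : Set V3} {F h : X → ℝ} (hF : Good Ω F) (hh : ContDiff ℝ ∞ h) :
    Good Ω (fun z => F z * h z) :=
  ⟨hF.sm.mul hh, hF.cp.mul_right,
    (closure_mono (Function.support_mul_subset_left F h)).trans hF.sp⟩

lemma Good.cmul {Ω : Set V3} {F : X → ℝ} (hF : Good Ω F) (c : ℝ) :
    Good Ω (fun z => c * F z) := by
  have := hF.mul (contDiff_const (c := c))
  simpa only [mul_comm] using this

lemma Good.dx {Ω : Set V3} {F : X → ℝ} (hF : Good Ω F) (j : Fin 3) : Good Ω (dx j F) :=
  ⟨smooth_dx hF.sm j, hF.cp.mono' ((subset_tsupport _).trans (tsupport_dx_subset F j)),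
    (tsupport_dx_subset F j).trans hF.sp⟩

lemma Good.add {Ω : Set V3} {F G : X → ℝ} (hF : Good Ω F) (hG : Good Ω G) :
    Good Ω (fun z => F z + G z) := by
  refine ⟨hF.sm.add hG.sm, hF.cp.add hG.cp, ?_⟩
  refine (closure_mono (Function.support_add F G)).trans ?_
  rw [closure_union]
  exact union_subset hF.sp hG.sp

lemma good_zero {Ω : Set V3} : Good Ω (fun _ => (0:ℝ)) :=
  ⟨contDiff_const, HasCompactSupport.zero, by simp [tsupport, Function.support_eq_empty_iff.2 (rfl : (fun _ : X => (0:ℝ)) = 0)]⟩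

lemma Good.sum {Ω : Set V3} {F : Fin 3 → X → ℝ} (hF : ∀ i, Good Ω (F i)) :
    Good Ω (fun z => ∑ i, F i z) := by
  simp only [Fin.sum_univ_three]
  exact ((hF 0).add (hF 1)).add (hF 2)

lemma Good.int {Ω : Set V3} {F : X → ℝ} (hF : Good Ω F) (μ : Measure X)
    [IsFiniteMeasureOnCompacts μ] : Integrable F μ :=
  hF.sm.continuous.integrable_of_hasCompactSupport hF.cp

lemma Good.bdd {Ω : Set V3} {F : X → ℝ} (hF : Good Ω F) : ∃ K, ∀ z, |F z| ≤ K :=
  hF.cp.exists_bound_of_continuous hF.sm.continuous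

lemma alg (l : Fin 3) (b g φ dA de : Fin 3 → ℝ) (dg dφ : Fin 3 → Fin 3 → ℝ) (A e E lam : ℝ)
    (hlam : lam ≠ 0) (hbl : b l = 0) (hg : ∀ i, g i = (- b i) * ∑ j, b j * dA j)
    (hde : ∀ j, j ≠ l → de j = 0) :
    A * e * (∑ i, ∑ j, b i * b j * dφ i j)
      - ∑ i, ((-lam⁻¹) * ((dg i l + (if i = l then ∑ k, dg k k else 0)) * E)) * φ i
      - ∑ i, ∑ j, ((-lam⁻¹) * (((if j = l then g i else 0) + (if i = l then g j else 0)) * E))
          * dφ i j
    = ∑ i, ∑ j, b i * b j * (A * (e * dφ i j + φ i * de j) + (e * φ i) * dA j)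
      + lam⁻¹ * ∑ i, (g i * (E * dφ i l + φ i * (lam * e)) + (E * φ i) * dg i l)
      + lam⁻¹ * ∑ k, (g k * (E * dφ l k + φ l * (if k = l then lam * e else 0))
          + (E * φ l) * dg k k) := by
  have hgl : g l = 0 := by rw [hg, hbl]; simp
  have h0 := hg 0
  have h1 := hg 1
  have h2 := hg 2
  have hi : lam⁻¹ * lam = 1 := inv_mul_cancel₀ hlam
  have hX : ∀ x : ℝ, lam⁻¹ * (lam * x) = x := fun x => by rw [← mul_assoc, hi, one_mul]
  simp only [Fin.sum_univ_three] at h0 h1 h2 ⊢
  fin_cases l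
  · have e1 := hde 1 (by decide)
    have e2 := hde 2 (by decide)
    simp at hbl hgl
    simp [hbl, hgl, e1, e2] at h1 h2 ⊢
    rw [h1, h2]
    field_simp
    ring
  · have e1 := hde 0 (by decide)
    have e2 := hde 2 (by decide)
    simp at hbl hgl
    simp [hbl, hgl, e1, e2] at h0 h2 ⊢
    rw [h0, h2]
    field_simp
    ring
  · have e1 := hde 0 (by decide)
    have e2 := hde 1 (by decide)
    simp at hbl hgl
    simp [hbl, hgl, e1, e2] at h0 h1 ⊢
    rw [h0, h1]
    field_simp
    ring

end SelfInt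

open SelfInt

theorem self_interaction (P : Prob) (a : X → ℝ) (ha : ContDiff ℝ ∞ a) (hac : HasCompactSupport a)
    (has : tsupport a ⊆ cyl P.Ω P.T)
    (Φ : ℝ → ℝ) (hΦ : ContDiff ℝ ∞ Φ) (hper : ∀ s, Φ (s + 1) = Φ s)
    (hone : ∫ s in (0:ℝ)..1, (deriv (deriv Φ) s) ^ 2 = 1) (l : Fin 3) (b : V3)
    (hbl : b l = 0) :
    ∃ C, 0 ≤ C ∧ ∀ lam, 1 ≤ lam →
      (|∫ z, (a z) ^ 2 * ((deriv (deriv Φ) (lam * z.2 l)) ^ 2 - 1) ∂P.μ| ≤ C / lam) ∧
      ∃ (h : Fin 3 → X → ℝ) (Q : Fin 3 → Fin 3 → X → ℝ),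
        (∀ i, Continuous (h i)) ∧ (∀ i j, Continuous (Q i j)) ∧ (∀ i j z, Q i j z = Q j i z) ∧
        (∀ i z, |h i z| ≤ C / lam) ∧ (∀ i j z, |Q i j z| ≤ C / lam) ∧
        ∀ φ : Fin 3 → X → ℝ, P.IsTest φ →
          ∫ z, (a z) ^ 2 * ((deriv (deriv Φ) (lam * z.2 l)) ^ 2 - 1)
              * (∑ i, ∑ j, b i * b j * dx j (φ i) z) ∂P.μ
            = ∫ z, ∑ i, h i z * φ i z ∂P.μ + P.Bd Q φ := by
  classical
  -- the one-variable functions
  have hd1 : ContDiff ℝ ∞ (deriv Φ) := (contDiff_infty_iff_deriv.1 hΦ).2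
  have hd2 : ContDiff ℝ ∞ (deriv (deriv Φ)) := (contDiff_infty_iff_deriv.1 hd1).2
  have hper1 : ∀ s, deriv Φ (s + 1) = deriv Φ s := fun s => by
    rw [← deriv_comp_add_const Φ 1 s]
    exact congrArg (fun f => deriv f s) (funext hper)
  have hper2 : ∀ s, deriv (deriv Φ) (s + 1) = deriv (deriv Φ) s := fun s => by
    rw [← deriv_comp_add_const (deriv Φ) 1 s]
    exact congrArg (fun f => deriv f s) (funext hper1)
  set θ : ℝ → ℝ := fun s => (deriv (deriv Φ) s) ^ 2 - 1 with hθ
  have hθs : ContDiff ℝ ∞ θ := (hd2.pow 2).sub contDiff_const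
  have hθp : ∀ s, θ (s + 1) = θ s := fun s => by simp only [hθ, hper2]
  have hθ0 : ∫ s in (0:ℝ)..1, θ s = 0 := by
    simp only [hθ]
    rw [intervalIntegral.integral_sub ((hd2.pow 2).continuous.intervalIntegrable _ _)
      (continuous_const.intervalIntegrable _ _), hone]
    simp
  obtain ⟨Θ, hΘs, hΘd, M, hM0, hM⟩ := exists_primitive θ hθs hθp hθ0
  -- `A = a ^ 2`
  set A : X → ℝ := fun z => (a z) ^ 2 with hA
  have hAg : Good P.Ω A := by
    have h1 : Good P.Ω a := ⟨ha, hac, has.trans (prod_mono (subset_univ _) le_rfl)⟩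
    have := h1.mul ha
    simpa only [hA, sq] using this
  set g : Fin 3 → X → ℝ := fun i z => (- b i) * ∑ j, b j * dx j A z with hg
  have hgg : ∀ i, Good P.Ω (g i) := fun i =>
    (Good.sum (fun j => (hAg.dx j).cmul (b j))).cmul (- b i)
  have hgl : ∀ z, g l z = 0 := fun z => by simp [hg, hbl]
  have hK1 : ∃ K, 0 ≤ K ∧ ∀ i z, |g i z| ≤ K := by
    choose K hK using fun i => (hgg i).bdd
    refine ⟨∑ i, |K i|, Finset.sum_nonneg fun _ _ => abs_nonneg _, fun i z => ?_⟩
    exact (hK i z).trans ((le_abs_self _).trans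
      (Finset.single_le_sum (f := fun i => |K i|) (fun _ _ => abs_nonneg _) (Finset.mem_univ i)))
  have hK2 : ∃ K, 0 ≤ K ∧ ∀ i j z, |dx j (g i) z| ≤ K := by
    choose K hK using fun i j => ((hgg i).dx j).bdd
    refine ⟨∑ i, ∑ j, |K i j|, Finset.sum_nonneg fun _ _ => Finset.sum_nonneg
      fun _ _ => abs_nonneg _, fun i j z => ?_⟩
    refine (hK i j z).trans ((le_abs_self _).trans ?_)
    refine (Finset.single_le_sum (f := fun j => |K i j|) (fun _ _ => abs_nonneg _)
      (Finset.mem_univ j)).trans ?_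
    exact Finset.single_le_sum (f := fun i => ∑ j, |K i j|)
      (fun _ _ => Finset.sum_nonneg fun _ _ => abs_nonneg _) (Finset.mem_univ i)
  obtain ⟨K1, hK10, hK1⟩ := hK1
  obtain ⟨K2, hK20, hK2⟩ := hK2
  set I0 : ℝ := ∫ z, |dx l A z| ∂P.μ with hI0
  have hI00 : 0 ≤ I0 := integral_nonneg fun _ => abs_nonneg _
  refine ⟨M * I0 + 2 * M * K1 + 4 * M * K2, by positivity, fun lam hlam => ?_⟩
  have hl0 : 0 < lam := lt_of_lt_of_le one_pos hlam
  set E : X → ℝ := wv Θ lam l with hE
  have hEs : ContDiff ℝ ∞ E := smooth_wv hΘs lam l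
  have hEd : ∀ j z, dx j E z = if j = l then lam * θ (lam * z.2 l) else 0 :=
    fun j z => dx_wv hΘd lam l j z
  have hEM : ∀ z, |E z| ≤ M := fun z => hM _
  set e : X → ℝ := wv θ lam l with he
  have hes : ContDiff ℝ ∞ e := smooth_wv hθs lam l
  have hθd : ∀ s, HasDerivAt θ (deriv θ s) s := fun s =>
    ((contDiff_infty_iff_deriv.1 hθs).1 s).hasDerivAt
  have hed : ∀ j z, j ≠ l → dx j e z = 0 := fun j z hj => by
    rw [he, dx_wv hθd lam l j z, if_neg hj]
  have hee : ∀ z : X, (deriv (deriv Φ) (lam * z.2 l)) ^ 2 - 1 = e z := fun z => rfl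
  have hEd' : ∀ j z, dx j E z = if j = l then lam * e z else 0 := fun j z => hEd j z
  refine ⟨?_, ?_⟩
  · -- first claim
    simp only [hee]
    have h1 : ∀ z, A z * e z = lam⁻¹ * dx l (fun y => A y * E y) z + (-lam⁻¹) * (dx l A z * E z) := by
      intro z
      rw [dx_mul hAg.sm hEs, hEd' l z, if_pos rfl]
      field_simp
      ring
    have h2 : Good P.Ω (fun y => A y * E y) := hAg.mul hEs
    have h3 : Good P.Ω (fun y => dx l A y * E y) := (hAg.dx l).mul hEs
    have h4 : ∫ z, (a z) ^ 2 * e z ∂P.μ = (-lam⁻¹) * ∫ z, dx l A z * E z ∂P.μ := by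
      rw [show (fun z => (a z) ^ 2 * e z) = fun z => lam⁻¹ * dx l (fun y => A y * E y) z
        + (-lam⁻¹) * (dx l A z * E z) from funext h1]
      rw [integral_add (((h2.dx l).int _).const_mul _) ((h3.int _).const_mul _),
        integral_const_mul, integral_const_mul, int_dx h2.sm h2.cp h2.sp l]
      simp
    rw [h4, abs_mul, abs_neg, abs_of_pos (inv_pos.2 hl0)]
    have h5 : |∫ z, dx l A z * E z ∂P.μ| ≤ M * I0 := by
      refine (abs_integral_le_integral_abs).trans ?_
      rw [hI0, ← integral_const_mul]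
      refine integral_mono (h3.int _).abs (((hAg.dx l).int _).abs.const_mul _) fun z => ?_
      show |dx l A z * E z| ≤ M * |dx l A z|
      rw [abs_mul, mul_comm]
      exact mul_le_mul_of_nonneg_right (hEM z) (abs_nonneg _)
    rw [div_eq_inv_mul]
    refine mul_le_mul_of_nonneg_left (h5.trans ?_) (inv_nonneg.2 hl0.le)
    have : 0 ≤ 2 * M * K1 + 4 * M * K2 := by positivity
    linarith
  · -- the fields
    set h : Fin 3 → X → ℝ := fun i z =>
      (-lam⁻¹) * ((dx l (g i) z + (if i = l then ∑ k, dx k (g k) z else 0)) * E z) with hh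
    set Q : Fin 3 → Fin 3 → X → ℝ := fun i j z =>
      (-lam⁻¹) * (((if j = l then g i z else 0) + (if i = l then g j z else 0)) * E z) with hQ
    have hhg : ∀ i, Good P.Ω (h i) := by
      intro i
      refine Good.cmul (Good.mul (Good.add ((hgg i).dx l) ?_) hEs) _
      by_cases hi : i = l
      · simp only [hi, if_true]; exact Good.sum fun k => (hgg k).dx k
      · simp only [hi, if_false]; exact good_zero
    have hQg : ∀ i j, Good P.Ω (Q i j) := by
      intro i j
      refine Good.cmul (Good.mul (Good.add ?_ ?_) hEs) _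
      · by_cases hj : j = l
        · simp only [hj, if_true]; exact hgg i
        · simp only [hj, if_false]; exact good_zero
      · by_cases hj : i = l
        · simp only [hj, if_true]; exact hgg j
        · simp only [hj, if_false]; exact good_zero
    refine ⟨h, Q, fun i => (hhg i).sm.continuous, fun i j => (hQg i j).sm.continuous,
      fun i j z => by simp only [hQ]; rw [add_comm], ?_, ?_, ?_⟩
    · intro i z
      simp only [hh]
      rw [abs_mul, abs_neg, abs_of_pos (inv_pos.2 hl0), div_eq_inv_mul]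
      refine mul_le_mul_of_nonneg_left ?_ (inv_nonneg.2 hl0.le)
      rw [abs_mul]
      have h1 : |dx l (g i) z + (if i = l then ∑ k, dx k (g k) z else 0)| ≤ 4 * K2 := by
        refine (abs_add_le _ _).trans ?_
        have h2 : |if i = l then ∑ k, dx k (g k) z else 0| ≤ 3 * K2 := by
          split_ifs
          · refine (Finset.abs_sum_le_sum_abs _ _).trans ?_
            refine (Finset.sum_le_sum fun k _ => hK2 k k z).trans ?_
            simp
          · simpa using hK20
        have := hK2 i l z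
        linarith
      calc |dx l (g i) z + (if i = l then ∑ k, dx k (g k) z else 0)| * |E z|
          ≤ (4 * K2) * M := mul_le_mul h1 (hEM z) (abs_nonneg _) (by positivity)
        _ ≤ M * I0 + 2 * M * K1 + 4 * M * K2 := by
          have : 0 ≤ M * I0 + 2 * M * K1 := by positivity
          linarith
    · intro i j z
      simp only [hQ]
      rw [abs_mul, abs_neg, abs_of_pos (inv_pos.2 hl0), div_eq_inv_mul]
      refine mul_le_mul_of_nonneg_left ?_ (inv_nonneg.2 hl0.le)
      rw [abs_mul]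
      have h1 : |(if j = l then g i z else 0) + (if i = l then g j z else 0)| ≤ 2 * K1 := by
        refine (abs_add_le _ _).trans ?_
        have h2 : |if j = l then g i z else 0| ≤ K1 := by
          split_ifs
          · exact hK1 i z
          · simpa using hK10
        have h3 : |if i = l then g j z else 0| ≤ K1 := by
          split_ifs
          · exact hK1 j z
          · simpa using hK10
        linarith
      calc |(if j = l then g i z else 0) + (if i = l then g j z else 0)| * |E z|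
          ≤ (2 * K1) * M := mul_le_mul h1 (hEM z) (abs_nonneg _) (by positivity)
        _ ≤ M * I0 + 2 * M * K1 + 4 * M * K2 := by
          have : 0 ≤ M * I0 + 4 * M * K2 := by positivity
          linarith
    · intro φ hφ
      simp only [hee]
      have hφs := hφ.smooth
      -- test functions of divergence form
      have hF1 : ∀ i, Good P.Ω (fun z => A z * (e z * φ i z)) := fun i => hAg.mul (hes.mul (hφs i))
      have hF2 : ∀ i k, Good P.Ω (fun z => g i z * (E z * φ k z)) := fun i k =>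
        (hgg i).mul (hEs.mul (hφs k))
      have hL : Good P.Ω (fun z => A z * e z * (∑ i, ∑ j, b i * b j * dx j (φ i) z)) := by
        have h1 : ContDiff ℝ ∞ (fun z => e z * (∑ i, ∑ j, b i * b j * dx j (φ i) z)) :=
          hes.mul (ContDiff.sum fun i _ => ContDiff.sum fun j _ =>
            contDiff_const.mul (smooth_dx (hφs i) j))
        have := hAg.mul h1
        simpa only [mul_assoc] using this
      have hH : Good P.Ω (fun z => ∑ i, h i z * φ i z) := Good.sum fun i => (hhg i).mul (hφs i)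
      have hB : Good P.Ω (fun z => ∑ i, ∑ j, Q i j z * dx j (φ i) z) :=
        Good.sum fun i => Good.sum fun j => (hQg i j).mul (smooth_dx (hφs i) j)
      have hD1 : ∀ i j, ∫ z, b i * b j * dx j (fun z => A z * (e z * φ i z)) z ∂P.μ = 0 := by
        intro i j
        rw [integral_const_mul, int_dx (hF1 i).sm (hF1 i).cp (hF1 i).sp j, mul_zero]
      have hD2 : ∀ i k j, ∫ z, dx j (fun z => g i z * (E z * φ k z)) z ∂P.μ = 0 := by
        intro i k j
        exact int_dx (hF2 i k).sm (hF2 i k).cp (hF2 i k).sp j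
      have hpt : ∀ z, A z * e z * (∑ i, ∑ j, b i * b j * dx j (φ i) z)
          - (∑ i, h i z * φ i z) - (∑ i, ∑ j, Q i j z * dx j (φ i) z)
          = (∑ i, ∑ j, b i * b j * dx j (fun z => A z * (e z * φ i z)) z)
            + lam⁻¹ * (∑ i, dx l (fun z => g i z * (E z * φ i z)) z)
            + lam⁻¹ * (∑ k, dx k (fun z => g k z * (E z * φ l z)) z) := by
        intro z
        have := alg l b (fun i => g i z) (fun i => φ i z) (fun j => dx j A z) (fun j => dx j e z)
          (fun i j => dx j (g i) z) (fun i j => dx j (φ i) z) (A z) (e z) (E z) lam hl0.ne' hbl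
          (fun i => rfl) (fun j hj => hed j z hj)
        simp only [hh, hQ]
        rw [this]
        congr 1
        · congr 1
          · refine Finset.sum_congr rfl fun i _ => Finset.sum_congr rfl fun j _ => ?_
            rw [dx_mul hAg.sm (hes.mul (hφs i)) j z, dx_mul hes (hφs i) j z]
          · congr 1
            refine Finset.sum_congr rfl fun i _ => ?_
            rw [dx_mul (hgg i).sm (hEs.mul (hφs i)) l z, dx_mul hEs (hφs i) l z, hEd' l z,
              if_pos rfl]
        · congr 1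
          refine Finset.sum_congr rfl fun i _ => ?_
          rw [dx_mul (hgg i).sm (hEs.mul (hφs l)) i z, dx_mul hEs (hφs l) i z, hEd' i z]
      have hR0 : ∫ z, ((∑ i, ∑ j, b i * b j * dx j (fun z => A z * (e z * φ i z)) z)
            + lam⁻¹ * (∑ i, dx l (fun z => g i z * (E z * φ i z)) z)
            + lam⁻¹ * (∑ k, dx k (fun z => g k z * (E z * φ l z)) z)) ∂P.μ = 0 := by
        have i1 : ∀ i j, Integrable (fun z => b i * b j * dx j (fun z => A z * (e z * φ i z)) z)
            P.μ := fun i j => (((hF1 i).dx j).int _).const_mul _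
        have i2 : ∀ i k j, Integrable (fun z => dx j (fun z => g i z * (E z * φ k z)) z) P.μ :=
          fun i k j => ((hF2 i k).dx j).int _
        rw [integral_add, integral_add, integral_const_mul, integral_const_mul,
          integral_finsetSum _ (fun i _ => integrable_finsetSum _ (fun j _ => i1 i j)),
          integral_finsetSum _ (fun i _ => i2 i i l), integral_finsetSum _ (fun k _ => i2 k l k)]
        · have : ∀ i, ∫ z, ∑ j, b i * b j * dx j (fun z => A z * (e z * φ i z)) z ∂P.μ = 0 := by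
            intro i
            rw [integral_finsetSum _ (fun j _ => i1 i j)]
            exact Finset.sum_eq_zero fun j _ => hD1 i j
          simp only [this, hD2]
          simp
        · exact integrable_finsetSum _ (fun i _ => integrable_finsetSum _ (fun j _ => i1 i j))
        · exact (integrable_finsetSum _ (fun i _ => i2 i i l)).const_mul _
        · exact (integrable_finsetSum _ (fun i _ => integrable_finsetSum _
            (fun j _ => i1 i j))).add ((integrable_finsetSum _ (fun i _ => i2 i i l)).const_mul _)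
        · exact (integrable_finsetSum _ (fun k _ => i2 k l k)).const_mul _
      have hfin : (∫ z, A z * e z * (∑ i, ∑ j, b i * b j * dx j (φ i) z) ∂P.μ)
          - (∫ z, (∑ i, h i z * φ i z) ∂P.μ)
          - (∫ z, (∑ i, ∑ j, Q i j z * dx j (φ i) z) ∂P.μ) = 0 := by
        have hLH : Integrable (fun z => A z * e z * (∑ i, ∑ j, b i * b j * dx j (φ i) z)
          - (∑ i, h i z * φ i z)) P.μ := (hL.int _).sub (hH.int _)
        rw [← integral_sub (hL.int _) (hH.int _), ← integral_sub hLH (hB.int _), ← hR0]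
        exact integral_congr_ae (Eventually.of_forall hpt)
      unfold Prob.Bd
      have e1 : (∫ z, (a z) ^ 2 * e z * (∑ i, ∑ j, b i * b j * dx j (φ i) z) ∂P.μ)
        = ∫ z, A z * e z * (∑ i, ∑ j, b i * b j * dx j (φ i) z) ∂P.μ := rfl
      rw [e1]
      linarith

end H37.LES
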